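import Pool.Agent.H38.Spa.Alg

/-!
Student-project allocation with non-closable lower quotas of projects is solved in polynomial time.
-/

namespace Pool.Agent.Results.MP_ef40db_lc.Poly

open Pool.Agent.H38.NP Pool.Agent.H38.Spa

theorem result : ∃ f, PolyTime f ∧ ∀ I : Inst, Valid I → ∃ o : Option (List (ℕ × ℕ)),
    f (enc I) = enc o ∧ (∀ M, o = some M → Good I M.toFinset) ∧ (o = none → ¬ ∃ M, Good I M) :=
  let ⟨f, hf, e⟩ := pt_alg.polyTimeOn Valid
  ⟨f, hf, fun I hI => ⟨alg I, e I hI, fun _ h => sound hI h, fun h ⟨_, hM⟩ => complete hI hM h⟩⟩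

end Pool.Agent.Results.MP_ef40db_lc.Poly
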